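import Mathlib

/-! # Intersecting hypergraphs with full cover number on a given number of vertices -/

namespace Pool.Agent.Vri

open Finset

/-- The cover number of the hypergraph with edge set `F` on the vertex set `Fin r`. -/
noncomputable def coverNumber {r : ℕ} (F : Finset (Finset (Fin r))) : ℕ :=
  sInf {k | ∃ C : Finset (Fin r), C.card = k ∧ ∀ A ∈ F, (A ∩ C).Nonempty}

/-- `F` is the edge set of an `s`-uniform intersecting hypergraph on the vertex set `Fin r`
whose cover number is `s`. -/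
def Admissible (r s : ℕ) (F : Finset (Finset (Fin r))) : Prop :=
  (∀ A ∈ F, A.card = s) ∧ (∀ A ∈ F, ∀ B ∈ F, (A ∩ B).Nonempty) ∧ coverNumber F = s

/-- `m(r,s)`: the least number of edges of such a hypergraph. -/
noncomputable def minEdges (r s : ℕ) : ℕ :=
  sInf {k | ∃ F : Finset (Finset (Fin r)), Admissible r s F ∧ F.card = k}

/-- A uniform intersecting family such that every set of size `r - s + 1` contains an edge is
admissible. -/
theorem admissible_of {r s : ℕ} (hs : 1 ≤ s) (hr : 2 * s ≤ r + 1) (F : Finset (Finset (Fin r)))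
    (h1 : ∀ A ∈ F, A.card = s) (h2 : ∀ A ∈ F, ∀ B ∈ F, (A ∩ B).Nonempty)
    (h3 : ∀ S : Finset (Fin r), S.card = r - s + 1 → ∃ A ∈ F, A ⊆ S) :
    Admissible r s F := by
  refine ⟨h1, h2, ?_⟩
  have hne : ∃ A, A ∈ F := by
    obtain ⟨S, -, hS⟩ := Finset.exists_subset_card_eq (s := (univ : Finset (Fin r)))
      (n := r - s + 1) (by rw [card_univ, Fintype.card_fin]; omega)
    obtain ⟨A, hA, -⟩ := h3 S hS
    exact ⟨A, hA⟩
  obtain ⟨A₀, hA₀⟩ := hne
  apply le_antisymm
  · exact Nat.sInf_le ⟨A₀, h1 A₀ hA₀, fun A hA => h2 A hA A₀ hA₀⟩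
  · refine le_csInf ⟨s, A₀, h1 A₀ hA₀, fun A hA => h2 A hA A₀ hA₀⟩ ?_
    rintro k ⟨C, hC, hcov⟩
    by_contra hk
    push Not at hk
    have hcc : (Cᶜ).card = r - C.card := by rw [card_compl, Fintype.card_fin]
    have hCr : C.card ≤ r := by
      have := Finset.card_le_univ C
      rwa [Fintype.card_fin] at this
    obtain ⟨S, hSC, hS⟩ := Finset.exists_subset_card_eq (s := Cᶜ)
      (n := r - s + 1) (by rw [hcc]; omega)
    obtain ⟨A, hA, hAS⟩ := h3 S hS
    obtain ⟨x, hx⟩ := hcov A hA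
    rw [mem_inter] at hx
    have := hSC (hAS hx.1)
    rw [mem_compl] at this
    exact this hx.2

/-- In an admissible hypergraph, every set of size `r - s + 1` contains an edge. -/
theorem Admissible.exists_subset {r s : ℕ}
    {F : Finset (Finset (Fin r))} (hF : Admissible r s F) (S : Finset (Fin r))
    (hS : S.card = r - s + 1) : ∃ A ∈ F, A ⊆ S := by
  by_contra hcon
  push Not at hcon
  have hcov : ∀ A ∈ F, (A ∩ Sᶜ).Nonempty := by
    intro A hA
    obtain ⟨x, hxA, hxS⟩ := Finset.not_subset.1 (hcon A hA)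
    exact ⟨x, mem_inter.2 ⟨hxA, mem_compl.2 hxS⟩⟩
  have h1 : coverNumber F ≤ (Sᶜ).card := Nat.sInf_le ⟨Sᶜ, rfl, hcov⟩
  rw [hF.2.2, card_compl, Fintype.card_fin] at h1
  have hSr : S.card ≤ r := by
    have := Finset.card_le_univ S
    rwa [Fintype.card_fin] at this
  omega

end Pool.Agent.Vri
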