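import Mathlib
import Pool.Agent.Vri.Defs

/-! # A rule selecting one set from each pair of complementary `s`-subsets of a `2s`-set -/

namespace Pool.Agent.Vri

open Finset

/-- The point `x` of `Fin (2s)` as the nonzero residue `x + 1` modulo `2s + 1`. -/
def res (s : ℕ) (x : Fin (2 * s)) : ZMod (2 * s + 1) := ((x.val + 1 : ℕ) : ZMod (2 * s + 1))

theorem res_val (s : ℕ) (x : Fin (2 * s)) : (res s x).val = x.val + 1 := by
  unfold res
  rw [ZMod.val_natCast_of_lt]
  have := x.isLt
  omega

theorem res_injective (s : ℕ) : Function.Injective (res s) := by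
  intro x y h
  have := congrArg ZMod.val h
  rw [res_val, res_val] at this
  exact Fin.ext (by omega)

/-- The sum of the residues of a set. -/
def sig (s : ℕ) (A : Finset (Fin (2 * s))) : ZMod (2 * s + 1) := ∑ x ∈ A, res s x

theorem sig_univ (s : ℕ) : sig s univ = 0 := by
  unfold sig res
  rw [← Nat.cast_sum]
  rw [ZMod.natCast_eq_zero_iff]
  rw [Fin.sum_univ_eq_sum_range (fun i => i + 1) (2 * s)]
  have h : (∑ i ∈ range (2 * s), (i + 1)) = s * (2 * s + 1) := by
    have h1 := Finset.sum_range_id_mul_two (2 * s + 1)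
    rw [Finset.sum_range_succ'] at h1
    have h2 : 2 * s + 1 - 1 = 2 * s := by omega
    rw [h2] at h1
    nlinarith [h1]
  rw [h]
  exact Dvd.intro_left s rfl

theorem sig_compl (s : ℕ) (A : Finset (Fin (2 * s))) : sig s Aᶜ = - sig s A := by
  have h : sig s A + sig s Aᶜ = 0 := by
    rw [← sig_univ s]
    exact Finset.sum_add_sum_compl A (res s)
  exact eq_neg_of_add_eq_zero_right h

theorem sig_erase (s : ℕ) (S : Finset (Fin (2 * s))) {x : Fin (2 * s)} (hx : x ∈ S) :
    sig s (S.erase x) = sig s S - res s x := by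
  unfold sig
  rw [← Finset.add_sum_erase S (res s) hx]
  ring

/-- The selection rule. -/
def Pref (s : ℕ) (A : Finset (Fin (2 * s))) : Prop :=
  (1 ≤ (sig s A).val ∧ (sig s A).val ≤ s) ∨
    (sig s A = 0 ∧ ∃ x ∈ A, res s x = ((s * (s + 1) + 1 : ℕ) : ZMod (2 * s + 1)))

theorem not_pref_compl (s : ℕ) (A : Finset (Fin (2 * s))) (h : Pref s A) : ¬ Pref s Aᶜ := by
  rintro h'
  have hv : (sig s A).val < 2 * s + 1 := ZMod.val_lt _
  rcases h with ⟨h1, h2⟩ | ⟨h1, x, hx, hxz⟩
  · have hne : sig s A ≠ 0 := by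
      intro h0; rw [h0, ZMod.val_zero] at h1; omega
    have hval : (sig s Aᶜ).val = 2 * s + 1 - (sig s A).val := by
      rw [sig_compl]
      have : NeZero (sig s A) := ⟨hne⟩
      exact ZMod.val_neg_of_ne_zero (sig s A)
    rcases h' with ⟨h3, h4⟩ | ⟨h3, -⟩
    · omega
    · rw [h3, ZMod.val_zero] at hval; omega
  · rcases h' with ⟨h3, h4⟩ | ⟨h3, y, hy, hyz⟩
    · rw [sig_compl, h1, neg_zero, ZMod.val_zero] at h3; omega
    · have : x = y := res_injective s (hxz.trans hyz.symm)
      subst this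
      rw [mem_compl] at hy
      exact hy hx

theorem exists_pref (s : ℕ) (hs : 1 ≤ s) (S : Finset (Fin (2 * s))) (hS : S.card = s + 1) :
    ∃ x ∈ S, Pref s (S.erase x) := by
  by_contra hcon
  push Not at hcon
  set σ := sig s S with hσ
  have h1 : S.image (res s) ⊆ (range (s + 1)).image (fun i : ℕ => σ + (i : ZMod (2 * s + 1))) := by
    intro y hy
    rw [mem_image] at hy
    obtain ⟨x, hx, rfl⟩ := hy
    have hp := hcon x hx
    unfold Pref at hp
    push Not at hp
    have hp1 := hp.1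
    rw [sig_erase s S hx, ← hσ] at hp1
    rw [mem_image]
    by_cases h0 : σ - res s x = 0
    · refine ⟨0, mem_range.2 (by omega), ?_⟩
      rw [Nat.cast_zero, add_zero]
      exact sub_eq_zero.1 h0
    · have hlt : (σ - res s x).val < 2 * s + 1 := ZMod.val_lt _
      have hpos : 1 ≤ (σ - res s x).val := by
        rw [Nat.one_le_iff_ne_zero]
        intro h; exact h0 ((ZMod.val_eq_zero _).1 h)
      have hgt := hp1 hpos
      refine ⟨2 * s + 1 - (σ - res s x).val, mem_range.2 (by omega), ?_⟩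
      rw [Nat.cast_sub hlt.le, ZMod.natCast_self, ZMod.natCast_val, ZMod.cast_id]
      ring
  have hc1 : (S.image (res s)).card = s + 1 := by
    rw [card_image_of_injective _ (res_injective s), hS]
  have hc2 : ((range (s + 1)).image (fun i : ℕ => σ + (i : ZMod (2 * s + 1)))).card ≤ s + 1 := by
    calc _ ≤ (range (s + 1)).card := card_image_le
      _ = s + 1 := card_range _
  have h2 := Finset.eq_of_subset_of_card_le h1 (by rw [hc1]; exact hc2)
  have hc3 : ((range (s + 1)).image (fun i : ℕ => σ + (i : ZMod (2 * s + 1)))).card =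
      (range (s + 1)).card := by rw [← h2, hc1, card_range]
  have hinj := Finset.card_image_iff.1 hc3
  have hsum : σ = ∑ i ∈ range (s + 1), (σ + (i : ZMod (2 * s + 1))) := by
    rw [← Finset.sum_image (f := fun y => y) (s := range (s + 1))
      (g := fun i : ℕ => σ + (i : ZMod (2 * s + 1))) (fun a ha b hb h => hinj ha hb h)]
    rw [← h2, Finset.sum_image (fun a _ b _ h => res_injective s h)]
    rfl
  have hN : ((2 * s + 1 : ℕ) : ZMod (2 * s + 1)) = 0 := ZMod.natCast_self _
  have hσ2 : σ = ((s * (s + 1) : ℕ) : ZMod (2 * s + 1)) := by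
    rw [Finset.sum_add_distrib, Finset.sum_const, card_range, nsmul_eq_mul, ← Nat.cast_sum] at hsum
    have h3 := Finset.sum_range_id_mul_two (s + 1)
    have h4 : (((∑ i ∈ range (s + 1), i) * 2 : ℕ) : ZMod (2 * s + 1)) =
        (((s + 1) * (s + 1 - 1) : ℕ) : ZMod (2 * s + 1)) := by rw [h3]
    have h5 : s + 1 - 1 = s := by omega
    rw [h5] at h4
    push_cast at h4 hsum hN ⊢
    have h6 : (2 : ZMod (2 * s + 1)) * σ = 2 * ((s + 1) * σ + ∑ i ∈ range (s + 1), (i : ZMod (2 * s + 1))) := by
      rw [← hsum]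
    linear_combination h6 + h4 + σ * hN
  have m0 : σ ∈ S.image (res s) := by
    rw [h2, mem_image]
    exact ⟨0, mem_range.2 (by omega), by simp⟩
  have m1 : σ + 1 ∈ S.image (res s) := by
    rw [h2, mem_image]
    exact ⟨1, mem_range.2 (by omega), by simp⟩
  rw [mem_image] at m0 m1
  obtain ⟨x0, hx0, hx0'⟩ := m0
  obtain ⟨x1, hx1, hx1'⟩ := m1
  have hne : x1 ≠ x0 := by
    intro h
    rw [h, hx0'] at hx1'
    have h7 : (1 : ZMod (2 * s + 1)) = 0 := by
      have := hx1'
      exact (left_eq_add.1 this)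
    have h8 : ((1 : ℕ) : ZMod (2 * s + 1)) = 0 := by push_cast; exact h7
    rw [ZMod.natCast_eq_zero_iff] at h8
    have := Nat.le_of_dvd one_pos h8
    omega
  apply hcon x0 hx0
  right
  refine ⟨?_, x1, mem_erase.2 ⟨hne, hx1⟩, ?_⟩
  · rw [sig_erase s S hx0, hx0', ← hσ, sub_self]
  · rw [hx1', hσ2]
    push_cast
    ring

end Pool.Agent.Vri
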