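import Mathlib
import Pool.Agent.Vri.Defs
import Pool.Agent.Vri.Orient

/-! # Counting -/

namespace Pool.Agent.Vri

open Finset

/-- A run of `s/2` consecutive points `x` for which `σ - (x+1)` lies in `{1,..,s}`. -/
theorem exists_run (s : ℕ) (σ : ZMod (2 * s + 1)) :
    ∃ a : ℕ, a + s / 2 ≤ 2 * s ∧ ∀ x : Fin (2 * s), a ≤ x.val → x.val < a + s / 2 →
      1 ≤ (σ - res s x).val ∧ (σ - res s x).val ≤ s := by
  have hv : σ.val < 2 * s + 1 := ZMod.val_lt σ
  have hσ : ((σ.val : ℕ) : ZMod (2 * s + 1)) = σ := by rw [ZMod.natCast_val, ZMod.cast_id]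
  have key : ∀ (x : Fin (2 * s)) (k : ℕ), k ≤ s → 1 ≤ k →
      (σ.val = k + (x.val + 1) ∨ σ.val + (2 * s + 1) = k + (x.val + 1)) →
      1 ≤ (σ - res s x).val ∧ (σ - res s x).val ≤ s := by
    intro x k hk hk1 h
    have h1 : σ - res s x = ((k : ℕ) : ZMod (2 * s + 1)) := by
      have hN : ((2 * s + 1 : ℕ) : ZMod (2 * s + 1)) = 0 := ZMod.natCast_self _
      rcases h with h | h
      · have := congrArg (fun n : ℕ => (n : ZMod (2 * s + 1))) h
        simp only [Nat.cast_add, hσ] at this
        rw [this]
        unfold res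
        push_cast
        ring
      · have := congrArg (fun n : ℕ => (n : ZMod (2 * s + 1))) h
        simp only [Nat.cast_add (σ.val), hN, hσ, add_zero] at this
        rw [this]
        unfold res
        push_cast
        ring
    rw [h1, ZMod.val_natCast_of_lt (by omega)]
    exact ⟨hk1, hk⟩
  by_cases c1 : s + 1 ≤ σ.val
  · refine ⟨σ.val - s - 1, by omega, ?_⟩
    intro x hx1 hx2
    exact key x (σ.val - (x.val + 1)) (by omega) (by omega) (Or.inl (by omega))
  · by_cases c2 : s / 2 ≤ σ.val - 1
    · refine ⟨0, by omega, ?_⟩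
      intro x hx1 hx2
      exact key x (σ.val - (x.val + 1)) (by omega) (by omega) (Or.inl (by omega))
    · refine ⟨s + σ.val, by omega, ?_⟩
      intro x hx1 hx2
      have := x.isLt
      exact key x (σ.val + (2 * s + 1) - (x.val + 1)) (by omega) (by omega) (Or.inr (by omega))

/-- In every residue class modulo `l`, there are `t` points `x` for which `σ - (x+1)` lies in
`{1,..,s}`, provided `t l ≤ s/2`. -/
theorem exists_J (s l t : ℕ) (hl : 1 ≤ l) (htl : t * l ≤ s / 2) (σ : ZMod (2 * s + 1)) (c : ℕ) :
    ∃ J : Finset (Fin (2 * s)), J.card = t ∧ ∀ x ∈ J,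
      (1 ≤ (σ - res s x).val ∧ (σ - res s x).val ≤ s) ∧ x.val ≡ c [MOD l] := by
  obtain ⟨a, ha, hrun⟩ := exists_run s σ
  obtain ⟨d, hd, hdc⟩ : ∃ d < l, a + d ≡ c [MOD l] := by
    refine ⟨(c + (l - a % l)) % l, Nat.mod_lt _ (by omega), ?_⟩
    have h1 : a % l < l := Nat.mod_lt _ (by omega)
    have h2 : a + (c + (l - a % l)) % l ≡ a % l + (c + (l - a % l)) [MOD l] :=
      Nat.ModEq.add (Nat.mod_modEq a l).symm (Nat.mod_modEq _ l)
    have h3 : a % l + (c + (l - a % l)) = c + l := by omega
    rw [h3] at h2
    have h4 : c + l ≡ c [MOD l] := by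
      unfold Nat.ModEq
      exact Nat.add_mod_right c l
    exact h2.trans h4
  have hlt : ∀ i < t, a + d + i * l < a + s / 2 := by
    intro i hi
    have h5 : (i + 1) * l ≤ t * l := Nat.mul_le_mul_right l hi
    have h6 : (i + 1) * l = i * l + l := by ring
    omega
  have hlt2 : ∀ i : Fin t, a + d + i.val * l < 2 * s := fun i => by
    have := hlt i.val i.isLt
    omega
  refine ⟨(univ : Finset (Fin t)).image (fun i => (⟨a + d + i.val * l, hlt2 i⟩ : Fin (2 * s))),
    ?_, ?_⟩
  · rw [card_image_of_injective, card_univ, Fintype.card_fin]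
    intro i j h
    have h7 : a + d + i.val * l = a + d + j.val * l := congrArg Fin.val h
    have h8 : i.val * l = j.val * l := by omega
    exact Fin.ext (Nat.eq_of_mul_eq_mul_right (by omega) h8)
  · intro x hx
    rw [mem_image] at hx
    obtain ⟨i, -, rfl⟩ := hx
    refine ⟨hrun _ (by show a ≤ a + d + i.val * l; omega) (hlt i.val i.isLt), ?_⟩
    show a + d + i.val * l ≡ c [MOD l]
    have h9 : a + d + i.val * l ≡ a + d [MOD l] := by
      unfold Nat.ModEq
      exact Nat.add_mul_mod_self_right (a + d) i.val l
    exact h9.trans hdc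

/-- The residue of a set modulo `l`. -/
def wt (s : ℕ) (A : Finset (Fin (2 * s))) : ℕ := ∑ x ∈ A, x.val

theorem choose_halve (n k : ℕ) (h : n + 1 ≤ 2 * k) : 2 * n.choose k ≤ (n + 1).choose k := by
  rcases k with _ | k
  · omega
  · have h1 := Nat.choose_succ_right_eq n k
    have h2 : n.choose (k + 1) * (k + 1) ≤ n.choose k * (k + 1) := by
      rw [h1]
      exact Nat.mul_le_mul_left _ (by omega)
    have h3 : n.choose (k + 1) ≤ n.choose k := Nat.le_of_mul_le_mul_right h2 (by omega)
    rw [Nat.choose_succ_succ']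
    omega

theorem choose_halve_iter (k : ℕ) (t : ℕ) : ∀ n, n + t ≤ 2 * k →
    2 ^ t * n.choose k ≤ (n + t).choose k := by
  induction t with
  | zero => intro n _; simp
  | succ t ih =>
    intro n hn
    have h1 := ih n (by omega)
    have h2 := choose_halve (n + t) k (by omega)
    calc 2 ^ (t + 1) * n.choose k = 2 * (2 ^ t * n.choose k) := by ring
      _ ≤ 2 * (n + t).choose k := Nat.mul_le_mul_left 2 h1
      _ ≤ (n + (t + 1)).choose k := h2

open Classical in
/-- The selected `s`-sets. -/
noncomputable def selected (s : ℕ) : Finset (Finset (Fin (2 * s))) :=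
  (powersetCard s univ).filter (Pref s)

theorem mem_selected {s : ℕ} {A : Finset (Fin (2 * s))} :
    A ∈ selected s ↔ A.card = s ∧ Pref s A := by
  classical
  unfold selected
  rw [mem_filter, mem_powersetCard]
  constructor
  · rintro ⟨⟨-, h⟩, h'⟩; exact ⟨h, h'⟩
  · rintro ⟨h, h'⟩; exact ⟨⟨subset_univ _, h⟩, h'⟩

theorem card_selected (s : ℕ) : 2 * (selected s).card ≤ (2 * s).choose s := by
  classical
  have h1 : Disjoint (selected s) ((selected s).image compl) := by
    rw [Finset.disjoint_left]
    intro A hA hA'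
    rw [mem_image] at hA'
    obtain ⟨B, hB, rfl⟩ := hA'
    exact not_pref_compl s B (mem_selected.1 hB).2 (mem_selected.1 hA).2
  have h2 : selected s ∪ (selected s).image compl ⊆ powersetCard s univ := by
    intro A hA
    rw [mem_union] at hA
    rw [mem_powersetCard]
    refine ⟨subset_univ _, ?_⟩
    rcases hA with hA | hA
    · exact (mem_selected.1 hA).1
    · rw [mem_image] at hA
      obtain ⟨B, hB, rfl⟩ := hA
      rw [card_compl, Fintype.card_fin, (mem_selected.1 hB).1]
      omega
  have h3 := card_le_card h2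
  rw [card_union_of_disjoint h1, card_image_of_injective _ compl_injective, card_powersetCard,
    card_univ, Fintype.card_fin] at h3
  omega

theorem selected_inter {s : ℕ} {A B : Finset (Fin (2 * s))} (hA : A ∈ selected s)
    (hB : B ∈ selected s) : (A ∩ B).Nonempty := by
  by_contra hcon
  rw [not_nonempty_iff_eq_empty] at hcon
  have h1 : B ⊆ Aᶜ := by
    intro x hx
    rw [mem_compl]
    intro hxA
    have : x ∈ A ∩ B := mem_inter.2 ⟨hxA, hx⟩
    rw [hcon] at this
    exact absurd this (notMem_empty x)
  have h2 : B = Aᶜ := by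
    apply Finset.eq_of_subset_of_card_le h1
    rw [card_compl, Fintype.card_fin, (mem_selected.1 hA).1, (mem_selected.1 hB).1]
    omega
  rw [h2] at hB
  exact not_pref_compl s A (mem_selected.1 hA).2 (mem_selected.1 hB).2

/-- The construction. -/
theorem exists_family (s : ℕ) (hs : 1 ≤ s) (l t : ℕ) (hl : 1 ≤ l) (htl : t * l ≤ s / 2) :
    ∃ F : Finset (Finset (Fin (2 * s))), Admissible (2 * s) s F ∧
      l * F.card ≤ (selected s).card + l * ((2 * s + 1) * l * (2 * s - t).choose (s + 1)) := by
  classical
  -- pigeonhole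
  obtain ⟨j, hj, hjc⟩ : ∃ j ∈ range l,
      l * ((selected s).filter (fun A => wt s A % l = j)).card ≤ (selected s).card := by
    by_contra hcon
    push Not at hcon
    have h1 : (selected s).card = ∑ j ∈ range l,
        ((selected s).filter (fun A => wt s A % l = j)).card := by
      apply Finset.card_eq_sum_card_fiberwise
      intro A _
      exact mem_coe.2 (mem_range.2 (Nat.mod_lt _ (by omega)))
    have h2 : ∑ j ∈ range l, (selected s).card <
        ∑ j ∈ range l, l * ((selected s).filter (fun A => wt s A % l = j)).card :=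
      Finset.sum_lt_sum_of_nonempty ⟨0, mem_range.2 (by omega)⟩ hcon
    rw [← Finset.mul_sum, ← h1, sum_const, card_range, smul_eq_mul] at h2
    exact lt_irrefl _ h2
  set G := (selected s).filter (fun A => wt s A % l = j) with hG
  choose x hxS hxP using exists_pref s hs
  choose J hJc hJ using exists_J s l t hl htl
  set U := (powersetCard (s + 1) (univ : Finset (Fin (2 * s)))).filter
    (fun S => ∀ A ∈ G, ¬ A ⊆ S) with hU
  have hUc : ∀ S ∈ U, S.card = s + 1 := fun S hS =>
    (mem_powersetCard.1 (mem_filter.1 hS).1).2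
  have hsel : ∀ (S : Finset (Fin (2 * s))) (hS : S.card = s + 1),
      S.erase (x S hS) ∈ selected s := by
    intro S hS
    rw [mem_selected]
    refine ⟨?_, hxP S hS⟩
    rw [card_erase_of_mem (hxS S hS), hS]
    omega
  set E := U.attach.image (fun S => S.1.erase (x S.1 (hUc S.1 S.2))) with hE
  have hFsel : ∀ A ∈ G ∪ E, A ∈ selected s := by
    intro A hA
    rw [mem_union] at hA
    rcases hA with hA | hA
    · exact (mem_filter.1 hA).1
    · rw [hE, mem_image] at hA
      obtain ⟨S, -, rfl⟩ := hA
      exact hsel S.1 _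
  refine ⟨G ∪ E, ?_, ?_⟩
  · apply admissible_of hs (by omega)
    · intro A hA
      exact (mem_selected.1 (hFsel A hA)).1
    · intro A hA B hB
      exact selected_inter (hFsel A hA) (hFsel B hB)
    · intro S hS
      have hS' : S.card = s + 1 := by rw [hS]; omega
      by_cases h : ∀ A ∈ G, ¬ A ⊆ S
      · have hSU : S ∈ U := by
          rw [hU, mem_filter, mem_powersetCard]
          exact ⟨⟨subset_univ _, hS'⟩, h⟩
        refine ⟨S.erase (x S (hUc S hSU)), mem_union_right _ ?_, erase_subset _ _⟩
        rw [hE, mem_image]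
        exact ⟨⟨S, hSU⟩, mem_attach _ _, rfl⟩
      · push Not at h
        obtain ⟨A, hA, hAS⟩ := h
        exact ⟨A, mem_union_left _ hA, hAS⟩
  · have hUsub : U ⊆ (univ : Finset (ZMod (2 * s + 1))).biUnion (fun σ =>
        (range l).biUnion (fun c => powersetCard (s + 1) (J σ c)ᶜ)) := by
      intro S hS
      have hScard := hUc S hS
      have hSG := (mem_filter.1 hS).2
      rw [mem_biUnion]
      refine ⟨sig s S, mem_univ _, ?_⟩
      rw [mem_biUnion]
      have hjl : j < l := mem_range.1 hj
      refine ⟨(wt s S + (l - j)) % l, mem_range.2 (Nat.mod_lt _ (by omega)), ?_⟩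
      rw [mem_powersetCard]
      refine ⟨?_, hScard⟩
      intro y hy
      rw [mem_compl]
      intro hyJ
      obtain ⟨⟨h1, h2⟩, h3⟩ := hJ (sig s S) ((wt s S + (l - j)) % l) y hyJ
      apply hSG (S.erase y) ?_ (erase_subset _ _)
      rw [hG, mem_filter, mem_selected]
      refine ⟨⟨?_, ?_⟩, ?_⟩
      · rw [card_erase_of_mem hy, hScard]; omega
      · left
        rw [sig_erase s S hy]
        exact ⟨h1, h2⟩
      · have h4 : y.val + wt s (S.erase y) = wt s S := by
          unfold wt
          exact Finset.add_sum_erase S (fun x => x.val) hy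
        have h5 : y.val ≡ wt s S + (l - j) [MOD l] := h3.trans (Nat.mod_modEq _ _)
        have h6 : y.val + j ≡ y.val + wt s (S.erase y) [MOD l] := by
          have h7 : y.val + j ≡ wt s S + (l - j) + j [MOD l] := Nat.ModEq.add_right j h5
          have h8 : wt s S + (l - j) + j = wt s S + l := by omega
          rw [h8] at h7
          rw [h4]
          have h9 : wt s S + l ≡ wt s S [MOD l] := Nat.add_mod_right (wt s S) l
          exact h7.trans h9
        have h10 : j ≡ wt s (S.erase y) [MOD l] := Nat.ModEq.add_left_cancel' _ h6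
        have h11 : j % l = wt s (S.erase y) % l := h10
        rw [← h11]
        exact Nat.mod_eq_of_lt hjl
    have hUcard : U.card ≤ (2 * s + 1) * l * (2 * s - t).choose (s + 1) := by
      calc U.card ≤ _ := card_le_card hUsub
        _ ≤ ∑ σ : ZMod (2 * s + 1),
            ((range l).biUnion (fun c => powersetCard (s + 1) (J σ c)ᶜ)).card :=
          card_biUnion_le
        _ ≤ ∑ σ : ZMod (2 * s + 1), l * (2 * s - t).choose (s + 1) := by
          apply Finset.sum_le_sum
          intro σ _
          calc _ ≤ ∑ c ∈ range l, (powersetCard (s + 1) (J σ c)ᶜ).card := card_biUnion_le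
            _ = ∑ c ∈ range l, (2 * s - t).choose (s + 1) := by
              apply Finset.sum_congr rfl
              intro c _
              rw [card_powersetCard, card_compl, Fintype.card_fin, hJc]
            _ = l * (2 * s - t).choose (s + 1) := by
              rw [sum_const, card_range, smul_eq_mul]
        _ = (2 * s + 1) * l * (2 * s - t).choose (s + 1) := by
          rw [sum_const, card_univ, ZMod.card, smul_eq_mul]
          ring
    have hEcard : E.card ≤ U.card := by
      calc E.card ≤ U.attach.card := card_image_le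
        _ = U.card := card_attach
    calc l * (G ∪ E).card ≤ l * (G.card + E.card) := Nat.mul_le_mul_left l (card_union_le _ _)
      _ = l * G.card + l * E.card := by ring
      _ ≤ (selected s).card + l * ((2 * s + 1) * l * (2 * s - t).choose (s + 1)) :=
        Nat.add_le_add hjc (Nat.mul_le_mul_left l (hEcard.trans hUcard))

theorem minEdges_le {r s : ℕ} {F : Finset (Finset (Fin r))} (hF : Admissible r s F) :
    minEdges r s ≤ F.card := Nat.sInf_le ⟨F, hF, rfl⟩

end Pool.Agent.Vri
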