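import Mathlib
import Pool.Agent.Vri.Main

/-! # The bounds for `m(2s,s)` -/

namespace Pool.Agent.Vri

open Finset

theorem selected_admissible (s : ℕ) (hs : 1 ≤ s) : Admissible (2 * s) s (selected s) := by
  apply admissible_of hs (by omega)
  · intro A hA
    exact (mem_selected.1 hA).1
  · intro A hA B hB
    exact selected_inter hA hB
  · intro S hS
    have hS' : S.card = s + 1 := by rw [hS]; omega
    obtain ⟨x, hx, hp⟩ := exists_pref s hs S hS'
    refine ⟨S.erase x, mem_selected.2 ⟨?_, hp⟩, erase_subset _ _⟩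
    rw [card_erase_of_mem hx, hS']
    omega

theorem exists_min (s : ℕ) (hs : 1 ≤ s) :
    ∃ F : Finset (Finset (Fin (2 * s))), Admissible (2 * s) s F ∧ F.card = minEdges (2 * s) s :=
  Nat.sInf_mem (s := {k | ∃ F : Finset (Finset (Fin (2 * s))), Admissible (2 * s) s F ∧
    F.card = k}) ⟨_, selected s, selected_admissible s hs, rfl⟩

theorem lower (s : ℕ) (hs : 1 ≤ s) :
    ((2 * s).choose s : ℝ) / (s + 1) ≤ minEdges (2 * s) s := by
  classical
  obtain ⟨F, hF, hFc⟩ := exists_min s hs
  rw [← hFc]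
  have hsub : powersetCard (s + 1) (univ : Finset (Fin (2 * s))) ⊆
      F.biUnion (fun A => (Aᶜ).image (fun x => insert x A)) := by
    intro S hS
    have hSc : S.card = s + 1 := (mem_powersetCard.1 hS).2
    obtain ⟨A, hA, hAS⟩ := hF.exists_subset S (by rw [hSc]; omega)
    rw [mem_biUnion]
    refine ⟨A, hA, ?_⟩
    have hAc : A.card = s := hF.1 A hA
    have h1 : (S \ A).card = 1 := by
      rw [card_sdiff_of_subset hAS, hSc, hAc]
      omega
    obtain ⟨x, hx⟩ := card_eq_one.1 h1
    have hxm : x ∈ S \ A := by rw [hx]; exact mem_singleton_self x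
    rw [mem_sdiff] at hxm
    rw [mem_image]
    refine ⟨x, mem_compl.2 hxm.2, ?_⟩
    apply Finset.eq_of_subset_of_card_le
    · intro y hy
      rw [mem_insert] at hy
      rcases hy with rfl | hy
      · exact hxm.1
      · exact hAS hy
    · rw [card_insert_of_notMem hxm.2, hAc, hSc]
  have h2 : (2 * s).choose (s + 1) ≤ F.card * s := by
    calc (2 * s).choose (s + 1) = (powersetCard (s + 1) (univ : Finset (Fin (2 * s)))).card := by
          rw [card_powersetCard, card_univ, Fintype.card_fin]
      _ ≤ _ := card_le_card hsub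
      _ ≤ ∑ A ∈ F, ((Aᶜ).image (fun x => insert x A)).card := card_biUnion_le
      _ ≤ ∑ A ∈ F, s := by
          apply Finset.sum_le_sum
          intro A hA
          calc _ ≤ (Aᶜ).card := card_image_le
            _ = 2 * s - s := by rw [card_compl, Fintype.card_fin, hF.1 A hA]
            _ ≤ s := by omega
      _ = F.card * s := by rw [sum_const, smul_eq_mul]
  have h3 : (2 * s).choose (s + 1) * (s + 1) = (2 * s).choose s * s := by
    have := Nat.choose_succ_right_eq (2 * s) s
    rw [this]
    congr 1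
    omega
  have h4 : (2 * s).choose s * s ≤ (F.card * (s + 1)) * s := by
    rw [← h3]
    calc (2 * s).choose (s + 1) * (s + 1) ≤ F.card * s * (s + 1) := Nat.mul_le_mul_right _ h2
      _ = (F.card * (s + 1)) * s := by ring
  have h5 : (2 * s).choose s ≤ F.card * (s + 1) := Nat.le_of_mul_le_mul_right h4 (by omega)
  rw [div_le_iff₀ (by positivity)]
  exact_mod_cast h5

theorem upper (s : ℕ) (hs : 1 ≤ s) :
    (minEdges (2 * s) s : ℝ) ≤ (6 * Real.logb 2 s + 13) / s * (2 * s).choose s := by
  set b := Nat.log 2 s with hb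
  have hbR : (b : ℝ) ≤ Real.logb 2 s := by
    have := Real.natLog_le_logb s 2
    exact_mod_cast this
  have hsR : (1 : ℝ) ≤ s := by exact_mod_cast hs
  have hs0 : (0 : ℝ) < s := by linarith
  set C : ℝ := ((2 * s).choose s : ℝ) with hC
  have hC0 : 0 ≤ C := by positivity
  have hP : 2 * ((selected s).card : ℝ) ≤ C := by
    have := card_selected s
    rw [hC]
    exact_mod_cast this
  -- it suffices to prove the bound with `b`
  suffices h : (minEdges (2 * s) s : ℝ) * s ≤ (6 * b + 13) * C by
    rw [div_mul_eq_mul_div, le_div_iff₀ hs0]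
    calc (minEdges (2 * s) s : ℝ) * s ≤ (6 * b + 13) * C := h
      _ ≤ (6 * Real.logb 2 s + 13) * C := by
        apply mul_le_mul_of_nonneg_right _ hC0
        linarith
  set t := 3 * (b + 2) with ht
  by_cases hc : t ≤ s / 2
  · set l := (s / 2) / t with hl
    have ht0 : 0 < t := by omega
    have hl1 : 1 ≤ l := (Nat.one_le_div_iff ht0).2 hc
    have htl : t * l ≤ s / 2 := Nat.mul_div_le _ _
    have hlt : s / 2 < t * (l + 1) := by
      have := Nat.lt_mul_div_succ (s / 2) ht0
      exact this
    have h4 : s ≤ 4 * (l * t) := by nlinarith [Nat.div_add_mod s 2, Nat.mod_lt s (show 0 < 2 by omega)]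
    obtain ⟨F, hF, hFc⟩ := exists_family s hs l t hl1 htl
    have hm : (minEdges (2 * s) s : ℝ) ≤ F.card := by exact_mod_cast minEdges_le hF
    set X := (2 * s + 1) * l * (2 * s - t).choose (s + 1) with hX
    have hpow : (2 * s + 2) ^ 3 ≤ 2 ^ t := by
      have h5 : s + 1 ≤ 2 ^ (b + 1) := Nat.lt_pow_succ_log_self (by omega) s
      have h6 : 2 * s + 2 ≤ 2 ^ (b + 2) := by rw [pow_succ]; omega
      calc (2 * s + 2) ^ 3 ≤ (2 ^ (b + 2)) ^ 3 := Nat.pow_le_pow_left h6 3
        _ = 2 ^ t := by rw [← pow_mul, ht]; ring_nf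
    have hch : 2 ^ t * (2 * s - t).choose (s + 1) ≤ (2 * s).choose s := by
      have h7 := choose_halve_iter (s + 1) t (2 * s - t) (by omega)
      have h8 : 2 * s - t + t = 2 * s := by omega
      rw [h8] at h7
      have h9 : (2 * s).choose (s + 1) ≤ (2 * s).choose s := by
        have := Nat.choose_le_centralBinom (s + 1) s
        rwa [Nat.centralBinom] at this
      exact h7.trans h9
    have hXb : (X : ℝ) * s ≤ C := by
      have h10 : (2 * s + 2) ^ 3 * X ≤ (2 * s + 1) * l * (2 * s).choose s := by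
        calc (2 * s + 2) ^ 3 * X ≤ 2 ^ t * X := Nat.mul_le_mul_right _ hpow
          _ = (2 * s + 1) * l * (2 ^ t * (2 * s - t).choose (s + 1)) := by rw [hX]; ring
          _ ≤ _ := Nat.mul_le_mul_left _ hch
      have h11 : (((2 * s + 2) ^ 3 * X : ℕ) : ℝ) ≤ (((2 * s + 1) * l * (2 * s).choose s : ℕ) : ℝ) :=
        Nat.cast_le.2 h10
      push_cast at h11
      rw [← hC] at h11
      have hls : (l : ℝ) ≤ s := by
        have : l ≤ s := by
          calc l ≤ s / 2 := Nat.div_le_self _ _
            _ ≤ s := Nat.div_le_self _ _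
        exact_mod_cast this
      have h12 : (2 * (s : ℝ) + 1) * l * C * s ≤ (2 * (s : ℝ) + 2) ^ 3 * C := by
        have h13 : (2 * (s : ℝ) + 1) * l * s ≤ (2 * (s : ℝ) + 2) ^ 3 := by
          calc (2 * (s : ℝ) + 1) * l * s ≤ (2 * (s : ℝ) + 1) * s * s := by gcongr
            _ ≤ (2 * (s : ℝ) + 2) ^ 3 := by nlinarith [mul_pos hs0 hs0, mul_pos (mul_pos hs0 hs0) hs0]
        calc (2 * (s : ℝ) + 1) * l * C * s = ((2 * (s : ℝ) + 1) * l * s) * C := by ring
          _ ≤ (2 * (s : ℝ) + 2) ^ 3 * C := mul_le_mul_of_nonneg_right h13 hC0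
      have h14 : (2 * (s : ℝ) + 2) ^ 3 * (X * s) ≤ (2 * (s : ℝ) + 2) ^ 3 * C := by
        calc (2 * (s : ℝ) + 2) ^ 3 * (X * s) = ((2 * (s : ℝ) + 2) ^ 3 * X) * s := by ring
          _ ≤ ((2 * (s : ℝ) + 1) * l * C) * s := mul_le_mul_of_nonneg_right h11 hs0.le
          _ ≤ _ := h12
      exact le_of_mul_le_mul_left h14 (by positivity)
    have hFR : (l : ℝ) * F.card ≤ (selected s).card + l * X := by
      exact_mod_cast hFc
    have hl0 : (0 : ℝ) < l := by exact_mod_cast hl1
    have h4R : (s : ℝ) ≤ 4 * (l * t) := by exact_mod_cast h4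
    have htR : (t : ℝ) = 3 * (b + 2) := by rw [ht]; push_cast; ring
    have h15 : (l : ℝ) * (F.card * s) ≤ l * ((6 * b + 13) * C) := by
      calc (l : ℝ) * (F.card * s) = (l * F.card) * s := by ring
        _ ≤ ((selected s).card + l * X) * s := mul_le_mul_of_nonneg_right hFR hs0.le
        _ = (selected s).card * s + l * (X * s) := by ring
        _ ≤ (C / 2) * (4 * (l * t)) + l * C := by
          apply add_le_add
          · apply mul_le_mul (by linarith) h4R hs0.le (by positivity)
          · exact mul_le_mul_of_nonneg_left hXb hl0.le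
        _ = l * ((6 * b + 13) * C) := by rw [htR]; ring
    calc (minEdges (2 * s) s : ℝ) * s ≤ F.card * s := mul_le_mul_of_nonneg_right hm hs0.le
      _ ≤ (6 * b + 13) * C := le_of_mul_le_mul_left h15 hl0
  · have hm : (minEdges (2 * s) s : ℝ) ≤ (selected s).card := by
      exact_mod_cast minEdges_le (selected_admissible s hs)
    have hs2 : s ≤ 6 * b + 13 := by omega
    have hs2R : (s : ℝ) ≤ 6 * b + 13 := by exact_mod_cast hs2
    calc (minEdges (2 * s) s : ℝ) * s ≤ C * s := by
          apply mul_le_mul_of_nonneg_right _ hs0.le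
          have : (0 : ℝ) ≤ ((selected s).card : ℝ) := by positivity
          linarith
      _ ≤ C * (6 * b + 13) := mul_le_mul_of_nonneg_left hs2R hC0
      _ = (6 * b + 13) * C := by ring

end Pool.Agent.Vri
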