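import Mathlib
import Pool.Agent.Vri.Final

/-! # More vertices do not increase `m(r,s)` -/

namespace Pool.Agent.Vri

open Finset

theorem admissible_castLE {r r' s : ℕ} (h : r ≤ r') {F : Finset (Finset (Fin r))}
    (hs : 1 ≤ s) (hF : Admissible r s F) :
    Admissible r' s (F.image (fun A => A.map (Fin.castLEEmb h))) := by
  classical
  have h1 : ∀ A ∈ F.image (fun A => A.map (Fin.castLEEmb h)), A.card = s := by
    intro A hA
    rw [mem_image] at hA
    obtain ⟨B, hB, rfl⟩ := hA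
    rw [card_map, hF.1 B hB]
  have h2 : ∀ A ∈ F.image (fun A => A.map (Fin.castLEEmb h)),
      ∀ B ∈ F.image (fun A => A.map (Fin.castLEEmb h)), (A ∩ B).Nonempty := by
    intro A hA B hB
    rw [mem_image] at hA hB
    obtain ⟨A', hA', rfl⟩ := hA
    obtain ⟨B', hB', rfl⟩ := hB
    obtain ⟨x, hx⟩ := hF.2.1 A' hA' B' hB'
    rw [mem_inter] at hx
    exact ⟨Fin.castLEEmb h x, mem_inter.2 ⟨mem_map_of_mem _ hx.1, mem_map_of_mem _ hx.2⟩⟩
  refine ⟨h1, h2, ?_⟩
  have hne : F.Nonempty := by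
    rw [nonempty_iff_ne_empty]
    rintro rfl
    have h3 : coverNumber (∅ : Finset (Finset (Fin r))) ≤ 0 :=
      Nat.sInf_le ⟨∅, card_empty, fun A hA => absurd hA (notMem_empty A)⟩
    have := hF.2.2
    omega
  obtain ⟨A₀, hA₀⟩ := hne
  have hA₀' : A₀.map (Fin.castLEEmb h) ∈ F.image (fun A => A.map (Fin.castLEEmb h)) :=
    mem_image_of_mem _ hA₀
  have hcov : ∃ C : Finset (Fin r'), C.card = s ∧
      ∀ A ∈ F.image (fun A => A.map (Fin.castLEEmb h)), (A ∩ C).Nonempty :=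
    ⟨_, h1 _ hA₀', fun A hA => h2 A hA _ hA₀'⟩
  apply le_antisymm
  · exact Nat.sInf_le hcov
  · refine le_csInf ⟨s, hcov⟩ ?_
    rintro k ⟨C, hC, hc⟩
    set D : Finset (Fin r) := univ.filter (fun x => Fin.castLEEmb h x ∈ C) with hD
    have h4 : D.card ≤ C.card := by
      rw [← card_map (Fin.castLEEmb h)]
      apply card_le_card
      intro y hy
      rw [mem_map] at hy
      obtain ⟨x, hx, rfl⟩ := hy
      exact (mem_filter.1 hx).2
    have h5 : coverNumber F ≤ D.card := by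
      refine Nat.sInf_le ⟨D, rfl, ?_⟩
      intro A hA
      obtain ⟨y, hy⟩ := hc _ (mem_image_of_mem _ hA)
      rw [mem_inter, mem_map] at hy
      obtain ⟨⟨x, hx, rfl⟩, hyC⟩ := hy
      exact ⟨x, mem_inter.2 ⟨hx, mem_filter.2 ⟨mem_univ _, hyC⟩⟩⟩
    rw [hF.2.2] at h5
    omega

theorem minEdges_mono {r s : ℕ} (hs : 1 ≤ s) (hr : 2 * s ≤ r) :
    minEdges r s ≤ minEdges (2 * s) s := by
  obtain ⟨F, hF, hFc⟩ := exists_min s hs
  rw [← hFc]
  exact (minEdges_le (admissible_castLE hr hs hF)).trans card_image_le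

theorem exists_min' {r s : ℕ} (hs : 1 ≤ s) (hr : 2 * s ≤ r) :
    ∃ F : Finset (Finset (Fin r)), Admissible r s F ∧ F.card = minEdges r s :=
  Nat.sInf_mem (s := {k | ∃ F : Finset (Finset (Fin r)), Admissible r s F ∧
    F.card = k}) ⟨_, _, admissible_castLE hr hs (selected_admissible s hs), rfl⟩

end Pool.Agent.Vri
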